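import Pool.Agent.H31.CG.NBTCore
import Pool.Agent.H45.CG.Defs

/-!
Part NBT of the project CG (helper45), MP_75608d_al (helper31).
-/

set_option autoImplicit false

namespace H31CG
open CG45

theorem NBT : StmtNBT := by
  intro n J D F F1 f K' σ hJ hf w hD h1 h2
  exact nbt n J D F F1 f K' (by omega) hf (altw σ w) hD h1 h2

end H31CG
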