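import Pool.Graph.R_seed8.H232R2.TE.FIXCNT2

/-!
Part NBT of the project CG (helper45), MP_75608d_al (helper31): alternating words in one random
letter have few fixed points.
-/

set_option autoImplicit false
set_option linter.unusedSectionVars false

namespace H31CG
open RC14 RC852 RC852.FIXCNT Finset

section list

/-- a list with a repetition has a last repetition -/
theorem last_rep {α : Type*} [DecidableEq α] (M : List α) (h : ¬ M.Nodup) :
    ∃ (M1 M3 M4 : List α) (x : α), M = M1 ++ x :: (M3 ++ x :: M4) ∧
      (M3 ++ x :: M4).Nodup := by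
  induction M with
  | nil => exact absurd List.nodup_nil h
  | cons y M' ih =>
    by_cases h' : M'.Nodup
    · have hy : y ∈ M' := by
        by_contra hy
        exact h (List.nodup_cons.2 ⟨hy, h'⟩)
      obtain ⟨M3, M4, rfl⟩ := List.append_of_mem hy
      exact ⟨[], M3, M4, y, rfl, h'⟩
    · obtain ⟨M1, M3, M4, x, hM, hn⟩ := ih h'
      exact ⟨y :: M1, M3, M4, x, by rw [hM]; rfl, hn⟩

end list

section
variable {n q : ℕ} {K : Type*} (g : K → Equiv.Perm (Fin n)) (b : Fin q → Equiv.Perm (Fin n))

/-- splitting a trajectory -/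
theorem edg_split (L : List (K × (Fin q × Bool))) (p : Fin n) (M1 M2 : List (Fin q × Fin n))
    (h : edg g b L p = M1 ++ M2) :
    L = L.take M1.length ++ L.drop M1.length ∧
      edg g b (L.take M1.length) (posn g b (L.drop M1.length) p) = M1 ∧
      edg g b (L.drop M1.length) p = M2 := by
  have h1 : L = L.take M1.length ++ L.drop M1.length := (List.take_append_drop _ _).symm
  have h2 := h
  rw [h1, edg_append] at h2
  have hlen : (edg g b (L.take M1.length) (posn g b (L.drop M1.length) p)).length =
      M1.length := by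
    rw [length_edg, List.length_take]
    have := congrArg List.length h
    rw [length_edg, List.length_append] at this
    omega
  have h3 := List.append_inj h2 hlen
  exact ⟨h1, h3.1, h3.2⟩

/-- modify the last block -/
def modLast {G : Type*} [Mul G] (k : G) (L : List (G × (Fin q × Bool))) :
    List (G × (Fin q × Bool)) :=
  match L.getLast? with
  | none => []
  | some d => L.dropLast ++ [(d.1 * k, d.2)]

theorem modLast_append {G : Type*} [Mul G] (k : G) (L : List (G × (Fin q × Bool)))
    (d : G × (Fin q × Bool)) : modLast k (L ++ [d]) = L ++ [(d.1 * k, d.2)] := by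
  unfold modLast
  rw [List.getLast?_append]
  simp

/-- same edge, same direction: same end -/
theorem same_dir (c c' : K × (Fin q × Bool)) (y y' : Fin n) (h : eid g b c y = eid g b c' y')
    (hs : c.2.2 = c'.2.2) : sl b c.2 (g c.1 y) = sl b c'.2 (g c'.1 y') := by
  obtain ⟨k, i, s⟩ := c
  obtain ⟨k', i', s'⟩ := c'
  simp only at hs
  subst hs
  unfold eid at h
  cases s
  · simp only [Bool.false_eq_true, if_false, Prod.mk.injEq] at h
    obtain ⟨rfl, h⟩ := h
    simpa [sl] using h
  · simp only [if_true, Prod.mk.injEq] at h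
    obtain ⟨rfl, h⟩ := h
    simp [sl, h]

/-- same edge, opposite directions -/
theorem opp_dir (c c' : K × (Fin q × Bool)) (y y' : Fin n) (h : eid g b c y = eid g b c' y')
    (hs : c.2.2 ≠ c'.2.2) : g c.1 y = sl b c'.2 (g c'.1 y') := by
  obtain ⟨k, i, s⟩ := c
  obtain ⟨k', i', s'⟩ := c'
  simp only at hs
  unfold eid at h
  cases s
  · cases s'
    · exact absurd rfl hs
    · simp only [Bool.false_eq_true, if_false, if_true, Prod.mk.injEq] at h
      obtain ⟨rfl, h⟩ := h
      rw [Equiv.Perm.inv_eq_iff_eq] at h
      simp [sl, h]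
  · cases s'
    · simp only [Bool.false_eq_true, if_false, if_true, Prod.mk.injEq] at h
      obtain ⟨rfl, h⟩ := h
      simp [sl, h]
    · exact absurd rfl hs

/-- the points fixed by the word `W` with all `b`-edges different -/
def SS (W : List (K × (Fin q × Bool))) (y : Fin n) : Prop :=
  W ≠ [] ∧ posn g b W y = y ∧ (edg g b W y).Nodup

end

section core
variable {n q : ℕ} (b : Fin q → Equiv.Perm (Fin n))

/-- an element of `A_n` as a permutation -/
def cp' {n : ℕ} (g : Alt n) : Equiv.Perm (Fin n) := g

/-- the word between two equal edges -/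
def wS {K : Type*} (L : List (K × (Fin q × Bool))) (a c : ℕ) : List (K × (Fin q × Bool)) :=
  (L.drop a).take (c - a)

/-- the modified word between two opposite edges -/
def wO {G : Type*} [Mul G] (L : List (G × (Fin q × Bool))) (a c : ℕ) :
    List (G × (Fin q × Bool)) :=
  match L[a]? with
  | none => []
  | some ca => modLast ca.1 ((L.drop (a + 1)).take (c - a - 1))

theorem core (L : List (Alt n × (Fin q × Bool))) (p : Fin n)
    (h : ¬ (edg cp' b L p).Nodup) :
    ∃ a c : ℕ, a < L.length ∧ c < L.length ∧
      ((∃ ca, L[a]? = some ca ∧ cp' ca.1 (posn cp' b (L.drop (a + 1)) p) =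
          posn cp' b (L.drop (a + 1)) p) ∨
        SS cp' b (wS L a c) (posn cp' b (L.drop c) p) ∨
        SS cp' b (wO L a c) (posn cp' b (L.drop (a + 1)) p)) := by
  classical
  obtain ⟨M1, M3, M4, x, hM, hn⟩ := last_rep _ h
  obtain ⟨hL1, hE1, hE2⟩ := edg_split cp' b L p M1 (x :: (M3 ++ x :: M4)) hM
  set L1 := L.take M1.length with hL1'
  set R1 := L.drop M1.length with hR1
  -- `R1 = ca :: R2`
  obtain ⟨ca, R2, hR1e⟩ : ∃ ca R2, R1 = ca :: R2 := by
    cases hR : R1 with
    | nil => rw [hR] at hE2; simp [edg] at hE2
    | cons c R => exact ⟨c, R, rfl⟩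
  rw [hR1e, edg, List.cons.injEq] at hE2
  obtain ⟨hxa, hE3⟩ := hE2
  obtain ⟨hR2, hE4, hE5⟩ := edg_split cp' b R2 p M3 (x :: M4) hE3
  set L3 := R2.take M3.length with hL3'
  set R3 := R2.drop M3.length with hR3
  obtain ⟨cc, L4, hR3e⟩ : ∃ cc L4, R3 = cc :: L4 := by
    cases hR : R3 with
    | nil => rw [hR] at hE5; simp [edg] at hE5
    | cons c R => exact ⟨c, R, rfl⟩
  rw [hR3e, edg, List.cons.injEq] at hE5
  obtain ⟨hxc, hE6⟩ := hE5
  have hlen3 : L3.length = M3.length := by
    rw [← hE4, length_edg]
  have hlen1 : L1.length = M1.length := by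
    rw [← hE1, length_edg]
  have hLe : L = L1 ++ ca :: (L3 ++ cc :: L4) := by
    rw [← hR3e, ← hR2, ← hR1e]; exact hL1
  have hlenL : L.length = L1.length + (L3.length + (L4.length + 1) + 1) := by
    rw [hLe]; simp
  set a := L1.length with ha
  set c := L1.length + 1 + L3.length with hc
  have hda : L.drop a = ca :: (L3 ++ cc :: L4) := by
    rw [hLe, ha, List.drop_left]
  have hda1 : L.drop (a + 1) = L3 ++ cc :: L4 := by
    rw [← List.drop_drop, hda]; rfl
  have hdc : L.drop c = cc :: L4 := by
    have : c = a + 1 + L3.length := rfl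
    rw [this, ← List.drop_drop, hda1, List.drop_left]
  have hga : L[a]? = some ca := by
    rw [hLe, ha, List.getElem?_append_right (le_refl _)]
    simp
  have hws : wS L a c = ca :: L3 := by
    unfold wS
    rw [hda]
    have : c - a = L3.length + 1 := by omega
    rw [this, List.take_succ_cons, List.take_left']
    rfl
  have hPa1 : posn cp' b (L.drop (a + 1)) p = posn cp' b L3 (posn cp' b (cc :: L4) p) := by
    rw [hda1, posn_append]
  have hE4' : edg cp' b L3 (posn cp' b (cc :: L4) p) = M3 := by
    rw [← hE4, hR3e]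
  have hxa' : eid cp' b ca (posn cp' b (L.drop (a + 1)) p) = x := by
    rw [← hxa, hda1, ← hR3e, ← hR2]
  refine ⟨a, c, by omega, by omega, ?_⟩
  by_cases hs : ca.2.2 = cc.2.2
  · -- same direction
    right; left
    rw [hws, hdc]
    refine ⟨by simp, ?_, ?_⟩
    · rw [posn_cons, ← hPa1, posn_cons]
      apply same_dir
      · rw [hxa', hxc]
      · exact hs
    · rw [edg, ← hPa1, hxa', hE4', List.nodup_cons]
      rw [List.nodup_append] at hn
      refine ⟨?_, hn.1⟩
      intro hx
      exact hn.2.2 x hx x (by simp) rfl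
  · have hop : cp' ca.1 (posn cp' b (L.drop (a + 1)) p) = posn cp' b (cc :: L4) p := by
      rw [posn_cons]
      apply opp_dir
      · rw [hxa', hxc]
      · exact hs
    rcases List.eq_nil_or_concat L3 with h3 | ⟨L5, cd, h3⟩
    · left
      refine ⟨ca, hga, ?_⟩
      rw [hop, hda1, h3]
      rfl
    · right; right
      have hwo : wO L a c = L5 ++ [(cd.1 * ca.1, cd.2)] := by
        unfold wO
        rw [hga]
        simp only
        rw [hda1]
        have : c - a - 1 = L3.length := by omega
        rw [this, List.take_left', h3, List.concat_eq_append, modLast_append]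
        rfl
      have hg : ∀ y, cp' (cd.1 * ca.1) y = cp' cd.1 (cp' ca.1 y) := fun y => rfl
      rw [List.concat_eq_append] at h3
      rw [hwo]
      refine ⟨by simp, ?_, ?_⟩
      · rw [posn_append, posn_cons]
        have h0 : posn cp' b ([] : List (Alt n × (Fin q × Bool)))
          (posn cp' b (L.drop (a + 1)) p) = posn cp' b (L.drop (a + 1)) p := rfl
        rw [h0]
        simp only
        rw [hg, hop, hPa1, h3, posn_append, posn_cons]
        rfl
      · have h1 : edg cp' b (L5 ++ [(cd.1 * ca.1, cd.2)]) (posn cp' b (L.drop (a + 1)) p) =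
            edg cp' b L3 (posn cp' b (cc :: L4) p) := by
          rw [h3, edg_append, edg_append]
          have h2 : posn cp' b [(cd.1 * ca.1, cd.2)] (posn cp' b (L.drop (a + 1)) p) =
              posn cp' b [cd] (posn cp' b (cc :: L4) p) := by
            rw [posn_cons, posn_cons]
            have h0 : posn cp' b ([] : List (Alt n × (Fin q × Bool)))
              (posn cp' b (L.drop (a + 1)) p) = posn cp' b (L.drop (a + 1)) p := rfl
            rw [h0]
            simp only
            rw [hg, hop]
            rfl
          rw [h2]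
          congr 1
          rw [edg, edg, edg, edg]
          congr 1
          have h0 : posn cp' b ([] : List (Alt n × (Fin q × Bool)))
            (posn cp' b (L.drop (a + 1)) p) = posn cp' b (L.drop (a + 1)) p := rfl
          rw [h0]
          unfold eid
          simp only
          rw [hg, hop]
          rfl
        rw [h1, hE4']
        rw [List.nodup_append] at hn
        exact hn.1

end core

section final

theorem length_modLast {G : Type*} [Mul G] {q : ℕ} (k : G) (L : List (G × (Fin q × Bool))) :
    (modLast k L).length ≤ L.length := by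
  rcases List.eq_nil_or_concat L with h | ⟨L5, cd, h⟩
  · subst h; simp [modLast]
  · rw [List.concat_eq_append] at h
    rw [h, modLast_append]; simp

theorem SS_imp {n : ℕ} (b : Fin 1 → Alt n) (L : List (Alt n × (Fin 1 × Bool))) (p : Fin n)
    (h : SS cp' (fun i => cp' (b i)) L p) :
    bwd cp' (fun i => (b i : Equiv.Perm (Fin n))) (fun t => L.get t) p = p ∧
      3 * L.length ≤ 4 * dst cp' (fun i => (b i : Equiv.Perm (Fin n)))
        (List.ofFn (fun t => L.get t)) p := by
  have hofn : List.ofFn (fun t => L.get t) = L := List.ofFn_get L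
  have h' : SS cp' (fun i => (b i : Equiv.Perm (Fin n))) L p := h
  obtain ⟨-, h2, h3⟩ := h'
  constructor
  · have h4 : bwd cp' (fun i => (b i : Equiv.Perm (Fin n))) (fun t => L.get t) =
        (List.map (blk cp' (fun i => (b i : Equiv.Perm (Fin n)))) L).prod := by
      conv_rhs => rw [← hofn, List.map_ofFn]
      rfl
    rw [h4]
    exact h2
  · rw [hofn]
    have h5 : dst cp' (fun i => (b i : Equiv.Perm (Fin n))) L p = L.length := by
      unfold dst
      rw [List.toFinset_card_of_nodup h3, length_edg]
    rw [h5]
    omega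

open Classical in
theorem FL (n J f K' F1 : ℕ) (hf : Odd f) (L : List (Alt n × (Fin 1 × Bool)))
    (hLJ : L.length ≤ J) (hF : 4 * (f * (3 * J + 1) + K') ≤ F1) :
    Nat.card {b : Fin 1 → Alt n // F1 ≤ #{p : Fin n | SS cp' (fun i => cp' (b i)) L p}} * K' ^ f ≤
      Fintype.card (Alt n) ^ 1 * (J * n) := by
  have hf1 : 1 ≤ f := hf.pos
  by_cases hL : L = []
  · have h0 : ∀ b : Fin 1 → Alt n, ¬ (F1 ≤ #{p : Fin n | SS cp' (fun i => cp' (b i)) L p}) := by
      intro b hb
      have : #{p : Fin n | SS cp' (fun i => cp' (b i)) L p} = 0 := by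
        rw [Finset.card_eq_zero, Finset.filter_eq_empty_iff]
        intro p _ hp
        exact hp.1 hL
      rw [this] at hb
      have : 0 < 4 * (f * (3 * J + 1) + K') := by positivity
      omega
    have h1 : IsEmpty {b : Fin 1 → Alt n // F1 ≤ #{p : Fin n |
        SS cp' (fun i => cp' (b i)) L p}} := ⟨fun x => h0 x.1 x.2⟩
    rw [Nat.card_of_isEmpty]
    simp
  · have hlen : 1 ≤ L.length := List.length_pos_iff.2 hL
    have h1 := TE852.FIXCNT2 n 1 L.length F1 f K' hlen hf (K := Alt n) cp' (fun t => L.get t)
      (by
        refine le_trans ?_ hF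
        gcongr)
    refine le_trans ?_ (h1.trans (by gcongr))
    have hmono : ∀ (P Q : (Fin 1 → Alt n) → Prop), (∀ β, P β → Q β) →
        Nat.card {β // P β} ≤ Nat.card {β // Q β} := fun P Q h =>
      Nat.card_le_card_of_injective (Subtype.map id h)
        (Subtype.map_injective _ Function.injective_id)
    refine Nat.mul_le_mul_right _ (hmono _ _ ?_)
    intro b hb
    refine hb.trans (Finset.card_le_card ?_)
    intro p hp
    rw [Finset.mem_filter] at hp ⊢
    exact ⟨Finset.mem_univ _, SS_imp b L p hp.2⟩

/-- the words which are fixed in advance -/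
def WW {n J : ℕ} (L : List (Alt n × (Fin 1 × Bool))) :
    Option (Fin J × Fin J × Bool) → List (Alt n × (Fin 1 × Bool))
  | none => L
  | some (a, c, true) => wS L a c
  | some (a, c, false) => wO L a c

theorem length_WW {n J : ℕ} (L : List (Alt n × (Fin 1 × Bool))) (hL : L.length = J)
    (x : Option (Fin J × Fin J × Bool)) : (WW L x).length ≤ J := by
  rcases x with _ | ⟨a, c, s⟩
  · exact hL.le
  · cases s
    · change (wO L a c).length ≤ J
      unfold wO
      split
      · simp
      · refine (length_modLast _ _).trans ?_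
        rw [List.length_take, List.length_drop]
        omega
    · change (wS L a c).length ≤ J
      unfold wS
      rw [List.length_take, List.length_drop]
      omega

/-- the map to the trajectory -/
def phi {n J : ℕ} (b : Fin 1 → Equiv.Perm (Fin n)) (L : List (Alt n × (Fin 1 × Bool))) :
    Option (Fin J × Fin J × Bool) → Fin n → Fin n
  | none, p => p
  | some (_, c, true), p => posn cp' b (L.drop c) p
  | some (a, _, false), p => posn cp' b (L.drop (a + 1)) p

theorem phi_inj {n J : ℕ} (b : Fin 1 → Equiv.Perm (Fin n)) (L : List (Alt n × (Fin 1 × Bool)))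
    (x : Option (Fin J × Fin J × Bool)) : Function.Injective (phi b L x) := by
  rcases x with _ | ⟨a, c, s⟩
  · exact fun _ _ h => h
  · cases s
    · exact posn_inj cp' b _
    · exact posn_inj cp' b _

open Classical in
theorem nfix_le (n J D : ℕ) (hJ : 1 ≤ J) (w : Fin J → Alt n × (Fin 1 × Bool))
    (hD : ∀ t, nfix (cp' (w t).1) ≤ D) (b : Fin 1 → Equiv.Perm (Fin n)) :
    nfix (bwd cp' b w) ≤ J * D + ∑ x : Option (Fin J × Fin J × Bool),
      #{p : Fin n | SS cp' b (WW (List.ofFn w) x) p} := by
  set L := List.ofFn w with hL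
  have hlen : L.length = J := by rw [hL, List.length_ofFn]
  have hsub : (Finset.univ.filter fun p : Fin n => bwd cp' b w p = p) ⊆
      (Finset.univ.biUnion fun a : Fin J =>
        (Finset.univ.filter fun p : Fin n => cp' (w a).1 (posn cp' b (L.drop (a + 1)) p) =
          posn cp' b (L.drop (a + 1)) p)) ∪
      (Finset.univ.biUnion fun x : Option (Fin J × Fin J × Bool) =>
        (Finset.univ.filter fun p : Fin n => SS cp' b (WW L x) (phi b L x p))) := by
    intro p hp
    rw [Finset.mem_filter] at hp
    have hp' : posn cp' b L p = p := by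
      have := hp.2
      unfold bwd at this
      unfold posn
      rw [hL, List.map_ofFn]
      exact this
    rw [Finset.mem_union, Finset.mem_biUnion, Finset.mem_biUnion]
    by_cases hn : (edg cp' b L p).Nodup
    · right
      refine ⟨none, Finset.mem_univ _, ?_⟩
      rw [Finset.mem_filter]
      refine ⟨Finset.mem_univ _, ?_, hp', hn⟩
      intro h0
      change L = [] at h0
      rw [h0, List.length_nil] at hlen
      omega
    · obtain ⟨a, c, ha, hc, h1 | h2 | h3⟩ := core b L p hn
      · left
        obtain ⟨ca, hca, hfix⟩ := h1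
        refine ⟨⟨a, hlen ▸ ha⟩, Finset.mem_univ _, ?_⟩
        rw [Finset.mem_filter]
        refine ⟨Finset.mem_univ _, ?_⟩
        have hwa : ca = w ⟨a, hlen ▸ ha⟩ := by
          rw [List.getElem?_eq_getElem ha, Option.some.injEq] at hca
          rw [← hca]
          simp [hL]
        rw [← hwa]
        exact hfix
      · right
        refine ⟨some (⟨a, hlen ▸ ha⟩, ⟨c, hlen ▸ hc⟩, true), Finset.mem_univ _, ?_⟩
        rw [Finset.mem_filter]
        exact ⟨Finset.mem_univ _, h2⟩
      · right
        refine ⟨some (⟨a, hlen ▸ ha⟩, ⟨c, hlen ▸ hc⟩, false), Finset.mem_univ _, ?_⟩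
        rw [Finset.mem_filter]
        exact ⟨Finset.mem_univ _, h3⟩
  have h1 := (Finset.card_le_card hsub).trans (Finset.card_union_le _ _)
  have h2 : (Finset.univ.biUnion fun a : Fin J =>
        (Finset.univ.filter fun p : Fin n => cp' (w a).1 (posn cp' b (L.drop (a + 1)) p) =
          posn cp' b (L.drop (a + 1)) p)).card ≤ J * D := by
    refine Finset.card_biUnion_le.trans ?_
    calc _ ≤ ∑ _a : Fin J, D := by
          apply Finset.sum_le_sum
          intro a _
          refine le_trans ?_ (hD a)
          unfold nfix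
          apply Finset.card_le_card_of_injOn (fun p => posn cp' b (L.drop (a + 1)) p)
          · intro p hp
            rw [Finset.mem_coe, Finset.mem_filter] at hp ⊢
            exact ⟨Finset.mem_univ _, hp.2⟩
          · exact fun x _ y _ h => posn_inj cp' b _ h
      _ = J * D := by simp
  have h3 : (Finset.univ.biUnion fun x : Option (Fin J × Fin J × Bool) =>
        (Finset.univ.filter fun p : Fin n => SS cp' b (WW L x) (phi b L x p))).card ≤
      ∑ x : Option (Fin J × Fin J × Bool), #{p : Fin n | SS cp' b (WW L x) p} := by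
    refine Finset.card_biUnion_le.trans ?_
    apply Finset.sum_le_sum
    intro x _
    apply Finset.card_le_card_of_injOn (fun p => phi b L x p)
    · intro p hp
      rw [Finset.mem_coe, Finset.mem_filter] at hp ⊢
      exact ⟨Finset.mem_univ _, hp.2⟩
    · exact fun y _ z _ h => phi_inj b L x h
  have h4 : nfix (bwd cp' b w) = (Finset.univ.filter fun p : Fin n => bwd cp' b w p = p).card := by
    unfold nfix
    congr!
  rw [h4]
  omega

open Classical in
theorem nbt (n J D F F1 f K' : ℕ) (hJ : 1 ≤ J) (hf : Odd f) (w : Fin J → Alt n × (Fin 1 × Bool))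
    (hD : ∀ t, nfix (cp' (w t).1) ≤ D) (h1 : 4 * (f * (3 * J + 1) + K') ≤ F1)
    (h2 : J * D + (2 * J ^ 2 + 1) * F1 ≤ F) :
    Nat.card {b : Fin 1 → Alt n // F ≤ nfix (bwd cp' (fun i => cp' (b i)) w)} * K' ^ f ≤
      (2 * J ^ 2 + 1) * (Fintype.card (Alt n) ^ 1 * (J * n)) := by
  have hcard : Fintype.card (Option (Fin J × Fin J × Bool)) = 2 * J ^ 2 + 1 := by
    rw [Fintype.card_option, Fintype.card_prod, Fintype.card_prod, Fintype.card_fin,
      Fintype.card_bool]
    ring
  set L := List.ofFn w with hL
  have hlen : L.length = J := by rw [hL, List.length_ofFn]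
  have h3 : Nat.card {b : Fin 1 → Alt n // F ≤ nfix (bwd cp' (fun i => cp' (b i)) w)} ≤
      ∑ x : Option (Fin J × Fin J × Bool), Nat.card {b : Fin 1 → Alt n // F1 ≤
        #{p : Fin n | SS cp' (fun i => cp' (b i)) (WW L x) p}} := by
    simp only [Nat.card_eq_fintype_card, Fintype.card_subtype]
    refine (Finset.card_le_card ?_).trans Finset.card_biUnion_le
    intro b hb
    rw [Finset.mem_filter] at hb
    rw [Finset.mem_biUnion]
    by_contra hcon
    push Not at hcon
    have h5 := nfix_le n J D hJ w hD (fun i => cp' (b i))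
    rw [← hL] at h5
    have h6 : ∑ x : Option (Fin J × Fin J × Bool),
        #{p : Fin n | SS cp' (fun i => cp' (b i)) (WW L x) p} <
        ∑ _x : Option (Fin J × Fin J × Bool), F1 := by
      apply Finset.sum_lt_sum_of_nonempty ⟨none, Finset.mem_univ _⟩
      intro x _
      have h7 := hcon x (Finset.mem_univ _)
      rw [Finset.mem_filter] at h7
      push Not at h7
      exact h7 (Finset.mem_univ _)
    rw [Finset.sum_const, Finset.card_univ, hcard, smul_eq_mul] at h6
    have h8 := hb.2
    omega
  calc _ ≤ (∑ x : Option (Fin J × Fin J × Bool), Nat.card {b : Fin 1 → Alt n // F1 ≤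
        #{p : Fin n | SS cp' (fun i => cp' (b i)) (WW L x) p}}) * K' ^ f :=
        Nat.mul_le_mul_right _ h3
    _ ≤ ∑ _x : Option (Fin J × Fin J × Bool), Fintype.card (Alt n) ^ 1 * (J * n) := by
        rw [Finset.sum_mul]
        exact Finset.sum_le_sum fun x _ => FL n J f K' F1 hf (WW L x) (length_WW L hlen x) h1
    _ = _ := by
        rw [Finset.sum_const, Finset.card_univ, hcard, smul_eq_mul]

end final

end H31CG
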